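import Mathlib

set_option autoImplicit false
set_option linter.unusedSectionVars false

open Matrix

namespace Pool.Agent.Helper441.CharSum

abbrev Mat (d : ℕ) : Type := Matrix (Fin d) (Fin d) ℂ

/-- Skolem-Noether for a unital anti-endomorphism. -/
theorem anti_form (d : ℕ) [NeZero d] (T : Mat d →ₗ[ℂ] Mat d)
    (hmul : ∀ X Y, T (X * Y) = T Y * T X) (h1 : T 1 = 1) :
    ∃ P P' : Mat d, P * P' = 1 ∧ P' * P = 1 ∧ ∀ X, T X = P * Xᵀ * P' := by
  let ψ0 : Mat d →ₐ[ℂ] Mat d :=
    AlgHom.ofLinearMap (T ∘ₗ (Matrix.transposeLinearEquiv (Fin d) (Fin d) ℂ ℂ).toLinearMap)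
      (by simp [h1]) (by intro x y; simp [Matrix.transpose_mul, hmul])
  have hinj : Function.Injective ψ0 := ψ0.toRingHom.injective
  have hbij : Function.Bijective ψ0 :=
    ⟨hinj, (LinearMap.injective_iff_surjective (f := ψ0.toLinearMap)).mp hinj⟩
  let ψ : Mat d ≃ₐ[ℂ] Mat d := AlgEquiv.ofBijective ψ0 hbij
  let L : Mat d ≃ₐ[ℂ] Module.End ℂ (Fin d → ℂ) := Matrix.toLinAlgEquiv'
  obtain ⟨S, hS⟩ := ((L.symm.trans ψ).trans L).eq_linearEquivConjAlgEquiv
  have hPP : (S.toLinearMap : Module.End ℂ (Fin d → ℂ)) * S.symm.toLinearMap = 1 := by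
    apply LinearMap.ext; intro x; simp [Module.End.mul_apply]
  have hPP' : (S.symm.toLinearMap : Module.End ℂ (Fin d → ℂ)) * S.toLinearMap = 1 := by
    apply LinearMap.ext; intro x; simp [Module.End.mul_apply]
  refine ⟨L.symm S.toLinearMap, L.symm S.symm.toLinearMap, ?_, ?_, ?_⟩
  · rw [← map_mul, hPP, map_one]
  · rw [← map_mul, hPP', map_one]
  · intro X
    have h2 : L (ψ (Xᵀ)) = S.toLinearMap ∘ₗ (L Xᵀ) ∘ₗ S.symm.toLinearMap := by
      have h3 := congrArg (fun f => f (L Xᵀ)) hS
      simp only [AlgEquiv.trans_apply, AlgEquiv.symm_apply_apply,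
        LinearEquiv.conjAlgEquiv_apply] at h3
      exact h3
    have h4 : T X = ψ (Xᵀ) := by
      simp [ψ, ψ0]
    rw [h4]
    apply L.injective
    rw [h2, map_mul, map_mul, AlgEquiv.apply_symm_apply, AlgEquiv.apply_symm_apply]
    rfl

theorem repr_std (d : ℕ) (A : Mat d) (i j : Fin d) :
    (Matrix.stdBasis ℂ (Fin d) (Fin d)).repr A (i, j) = A i j := by
  simp [Matrix.stdBasis, Pi.basis_repr]

theorem trace_form (d : ℕ) (T : Mat d →ₗ[ℂ] Mat d) (P P' : Mat d)
    (h : ∀ X, T X = P * Xᵀ * P') :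
    LinearMap.trace ℂ (Mat d) T = (P * P'ᵀ).trace := by
  rw [LinearMap.trace_eq_matrix_trace ℂ (Matrix.stdBasis ℂ (Fin d) (Fin d)) T]
  simp only [Matrix.trace, Matrix.diag_apply, LinearMap.toMatrix_apply]
  rw [Fintype.sum_prod_type]
  apply Finset.sum_congr rfl
  intro i _
  rw [Matrix.mul_apply]
  apply Finset.sum_congr rfl
  intro j _
  rw [Matrix.stdBasis_eq_single, h]
  rw [repr_std, Matrix.transpose_single, Matrix.transpose_apply]
  simp [Matrix.mul_apply, Matrix.single_apply, ite_and]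

theorem norm_trace_le (d : ℕ) (Q : Mat d) (k : ℕ) (hk : 0 < k) (h : Q ^ k = 1) :
    ‖Q.trace‖ ≤ d := by
  rw [Matrix.trace_eq_sum_roots_charpoly]
  have hroot : ∀ z ∈ Q.charpoly.roots, ‖z‖ ≤ 1 := by
    intro z hz
    have h1 : z ∈ spectrum ℂ Q :=
      Matrix.mem_spectrum_of_isRoot_charpoly ((Polynomial.mem_roots'.mp hz).2)
    have h2 : z ^ k ∈ spectrum ℂ (Q ^ k) := spectrum.pow_mem_pow Q k h1
    rw [h] at h2
    rcases Nat.eq_zero_or_pos d with hd | hd
    · subst hd
      have : (Q.charpoly).roots = 0 := by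
        simp [Matrix.charpoly]
      rw [this] at hz
      simp at hz
    · have : NeZero d := ⟨hd.ne'⟩
      rw [spectrum.one_eq] at h2
      have h3 : z ^ k = 1 := h2
      exact (Complex.norm_eq_one_of_pow_eq_one h3 hk.ne').le
  refine (norm_multiset_sum_le _).trans ?_
  refine (Multiset.sum_le_card_nsmul _ 1 ?_).trans ?_
  · intro x hx
    rw [Multiset.mem_map] at hx
    obtain ⟨z, hz, rfl⟩ := hx
    exact hroot z hz
  · rw [Multiset.card_map, nsmul_eq_mul, mul_one]
    have h1 := Polynomial.card_roots' Q.charpoly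
    rw [Matrix.charpoly_natDegree_eq_dim, Fintype.card_fin] at h1
    exact_mod_cast h1


/-- Conjugation form of the square. -/
theorem anti_trace_le (d : ℕ) [NeZero d] (T : Mat d →ₗ[ℂ] Mat d)
    (hmul : ∀ X Y, T (X * Y) = T Y * T X) (h1 : T 1 = 1) (N : ℕ) (hN : 0 < N)
    (hT : ∀ X, (T ^ N) X = X) : ‖LinearMap.trace ℂ (Mat d) T‖ ≤ d := by
  obtain ⟨P, P', hPP, hPP', hP⟩ := anti_form d T hmul h1
  rw [trace_form d T P P' hP]
  have ht1 : Pᵀ * P'ᵀ = 1 := by rw [← Matrix.transpose_mul, hPP', Matrix.transpose_one]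
  have ht2 : P'ᵀ * Pᵀ = 1 := by rw [← Matrix.transpose_mul, hPP, Matrix.transpose_one]
  set Q := P * P'ᵀ with hQ
  set Q' := Pᵀ * P' with hQ'
  have hQQ : Q * Q' = 1 := by
    rw [hQ, hQ', Matrix.mul_assoc, ← Matrix.mul_assoc P'ᵀ, ht2, Matrix.one_mul, hPP]
  have hQQ' : Q' * Q = 1 := by
    rw [hQ, hQ', Matrix.mul_assoc, ← Matrix.mul_assoc P', hPP', Matrix.one_mul, ht1]
  have hsq : ∀ X, T (T X) = Q * X * Q' := by
    intro X
    rw [hP X, hP, hQ, hQ']
    simp only [Matrix.transpose_mul, Matrix.transpose_transpose, Matrix.mul_assoc]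
  have hpow : ∀ (k : ℕ) (X : Mat d), (T ^ (2 * k)) X = Q ^ k * X * Q' ^ k := by
    intro k
    induction k with
    | zero => intro X; simp
    | succ k ih =>
      intro X
      rw [show 2 * (k + 1) = 2 + 2 * k by ring, pow_add, Module.End.mul_apply, ih, pow_two,
        Module.End.mul_apply, hsq, pow_succ', pow_succ]
      simp only [Matrix.mul_assoc]
  have h2N : ∀ X : Mat d, Q ^ N * X * Q' ^ N = X := by
    intro X
    rw [← hpow, two_mul, pow_add, Module.End.mul_apply, hT, hT]
  have hcomm : ∀ X : Mat d, Q ^ N * X = X * Q ^ N := by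
    intro X
    have h3 : Q' ^ N * Q ^ N = 1 := by
      have hc : Commute Q' Q := by
        unfold Commute SemiconjBy; rw [hQQ, hQQ']
      rw [← hc.mul_pow, hQQ', one_pow]
    calc Q ^ N * X = Q ^ N * X * (Q' ^ N * Q ^ N) := by rw [h3, Matrix.mul_one]
      _ = (Q ^ N * X * Q' ^ N) * Q ^ N := by simp only [Matrix.mul_assoc]
      _ = X * Q ^ N := by rw [h2N]
  obtain ⟨c, hc⟩ : ∃ c : ℂ, Q ^ N = c • (1 : Mat d) := by
    have hmem : Q ^ N ∈ Subalgebra.center ℂ (Mat d) := by
      rw [Subalgebra.mem_center_iff]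
      intro X
      exact (hcomm X).symm
    rw [Algebra.IsCentral.center_eq_bot ℂ (Mat d)] at hmem
    obtain ⟨c, hc⟩ := Algebra.mem_bot.mp hmem
    exact ⟨c, by rw [← hc, Algebra.algebraMap_eq_smul_one]⟩
  -- Q' is conjugate to the transpose of Q
  have hconj : Q' = P * Qᵀ * P' := by
    rw [hQ, hQ']
    simp only [Matrix.transpose_mul, Matrix.transpose_transpose]
    rw [← Matrix.mul_assoc, hPP, Matrix.one_mul]
  have hconjpow : ∀ k : ℕ, Q' ^ k = P * (Qᵀ) ^ k * P' := by
    intro k
    induction k with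
    | zero => simp [hPP]
    | succ k ih =>
      rw [pow_succ, ih, pow_succ]
      calc P * Qᵀ ^ k * P' * Q' = P * Qᵀ ^ k * P' * (P * Qᵀ * P') := by rw [← hconj]
        _ = P * Qᵀ ^ k * (P' * P) * (Qᵀ * P') := by
            simp only [Matrix.mul_assoc]
        _ = P * (Qᵀ ^ k * Qᵀ) * P' := by
            rw [hPP', Matrix.mul_one]; simp only [Matrix.mul_assoc]
  have hQ'N : Q' ^ N = c • (1 : Mat d) := by
    rw [hconjpow, ← Matrix.transpose_pow, hc, Matrix.transpose_smul, Matrix.transpose_one]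
    simp [hPP]
  have hcc : Q ^ (2 * N) = 1 := by
    have h3 : Q ^ N * Q' ^ N = 1 := by
      have hc' : Commute Q Q' := by
        unfold Commute SemiconjBy; rw [hQQ, hQQ']
      rw [← hc'.mul_pow, hQQ, one_pow]
    rw [hQ'N, ← hc, ← pow_add, ← two_mul] at h3
    exact h3
  exact norm_trace_le d Q (2 * N) (by omega) hcc


section Prod

variable {n : ℕ} (d : Fin n → ℕ)

abbrev Prd : Type := ∀ i : Fin n, Mat (d i)

/-- Trace of an endomorphism of a product as the sum of the traces of the diagonal blocks. -/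
theorem trace_pi (f : Prd d →ₗ[ℂ] Prd d) :
    LinearMap.trace ℂ (Prd d) f =
      ∑ i, LinearMap.trace ℂ (Mat (d i))
        (LinearMap.proj i ∘ₗ f ∘ₗ LinearMap.single ℂ (fun i => Mat (d i)) i) := by
  have hid : (LinearMap.id : Prd d →ₗ[ℂ] Prd d) =
      ∑ i, LinearMap.single ℂ (fun i => Mat (d i)) i ∘ₗ LinearMap.proj i := by
    apply LinearMap.ext
    intro x
    simp only [LinearMap.id_apply, LinearMap.sum_apply, LinearMap.comp_apply, LinearMap.proj_apply,
      LinearMap.coe_single]
    exact (Finset.univ_sum_single x).symm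
  have h1 : f = ∑ i, (f ∘ₗ LinearMap.single ℂ (fun i => Mat (d i)) i) ∘ₗ LinearMap.proj i := by
    calc f = f ∘ₗ LinearMap.id := by simp
      _ = _ := by
        rw [hid]
        apply LinearMap.ext
        intro x
        simp only [LinearMap.sum_apply, LinearMap.comp_apply, map_sum]
  conv_lhs => rw [h1]
  rw [map_sum]
  apply Finset.sum_congr rfl
  intro i _
  rw [LinearMap.trace_comp_comm']

variable [∀ i, NeZero (d i)]

theorem single_mul (i : Fin n) (X Y : Mat (d i)) :
    (Pi.single i (X * Y) : Prd d) = Pi.single i X * Pi.single i Y := by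
  rw [← Pi.single_mul]

theorem central_idem (d : ℕ) [NeZero d] (E : Mat d) (hE : E * E = E) (hc : ∀ X, E * X = X * E) :
    E = 0 ∨ E = 1 := by
  obtain ⟨c, hc⟩ : ∃ c : ℂ, E = c • (1 : Mat d) := by
    have hmem : E ∈ Subalgebra.center ℂ (Mat d) := by
      rw [Subalgebra.mem_center_iff]
      intro X
      exact (hc X).symm
    rw [Algebra.IsCentral.center_eq_bot ℂ (Mat d)] at hmem
    obtain ⟨c, hc⟩ := Algebra.mem_bot.mp hmem
    exact ⟨c, by rw [← hc, Algebra.algebraMap_eq_smul_one]⟩
  have h1 : (c * c) • (1 : Mat d) = c • (1 : Mat d) := by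
    rw [hc] at hE
    simpa [smul_smul] using hE
  have h2 : c * c = c := smul_left_injective ℂ (one_ne_zero : (1 : Mat d) ≠ 0) h1
  rcases mul_eq_zero.mp (show c * (c - 1) = 0 by linear_combination h2) with h | h
  · left; rw [hc, h, zero_smul]
  · right; rw [hc, sub_eq_zero.mp h, one_smul]

/-- The trace bound for an anti-automorphism of finite order of a product of matrix algebras. -/
theorem trace_bound (θ : Prd d ≃ₗ[ℂ] Prd d) (hmul : ∀ X Y, θ (X * Y) = θ Y * θ X)
    (N : ℕ) (hN : 0 < N) (hθ : ∀ X, (θ.toLinearMap ^ N) X = X) :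
    ‖LinearMap.trace ℂ (Prd d) θ.toLinearMap‖ ≤ ∑ i, (d i : ℝ) := by
  rw [trace_pi]
  refine (norm_sum_le _ _).trans (Finset.sum_le_sum (fun i _ => ?_))
  set T : Mat (d i) →ₗ[ℂ] Mat (d i) :=
    LinearMap.proj i ∘ₗ θ.toLinearMap ∘ₗ LinearMap.single ℂ (fun i => Mat (d i)) i with hT
  have hTapp : ∀ X, T X = θ (Pi.single i X) i := by intro X; rfl
  have hTmul : ∀ X Y, T (X * Y) = T Y * T X := by
    intro X Y
    rw [hTapp, hTapp, hTapp, single_mul, hmul]
    rfl
  have hcen : ∀ x : Prd d, (Pi.single i 1 : Prd d) * x = x * Pi.single i 1 := by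
    intro x
    ext j : 1
    by_cases h : j = i
    · subst h; simp
    · simp [Pi.mul_apply, Pi.single_eq_of_ne h]
  have hthc : ∀ y : Prd d, θ (Pi.single i 1) * y = y * θ (Pi.single i 1) := by
    intro y
    obtain ⟨x, rfl⟩ := θ.surjective y
    rw [← hmul, ← hmul, hcen]
  have hidem : (Pi.single i 1 : Prd d) * Pi.single i 1 = Pi.single i 1 := by
    rw [← single_mul, one_mul]
  have hTidem : T 1 * T 1 = T 1 := by rw [← hTmul, one_mul]
  have hTc : ∀ X, T 1 * X = X * T 1 := by
    intro X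
    have := congrFun (hthc (Pi.single i X)) i
    simpa [hTapp] using this
  rcases central_idem (d i) (T 1) hTidem hTc with h0 | h1
  · have : T = 0 := by
      apply LinearMap.ext
      intro X
      have := hTmul X 1
      rw [mul_one, h0, zero_mul] at this
      simpa using this
    rw [this]
    simp
  · -- the block is fixed
    obtain ⟨F, hF⟩ := θ.surjective (Pi.single i 1)
    have hFs : F * Pi.single i 1 = F := by
      apply θ.injective
      rw [hmul, hF]
      have : θ (Pi.single i 1) * Pi.single i 1 = Pi.single i (T 1) := by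
        ext j : 1
        by_cases h : j = i
        · subst h; simp [hTapp]
        · simp [Pi.mul_apply, Pi.single_eq_of_ne h]
      rw [this, h1]
    have hFi : F = Pi.single i (F i) := by
      rw [← hFs]
      ext j : 1
      by_cases h : j = i
      · subst h; simp
      · simp [Pi.mul_apply, Pi.single_eq_of_ne h]
    have hFc : ∀ y : Prd d, F * y = y * F := by
      intro y
      apply θ.injective
      rw [hmul, hmul, hF, hcen]
    have hFidem : F * F = F := by
      apply θ.injective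
      rw [hmul, hF, hidem]
    have hFi0 : F i = 0 ∨ F i = 1 := by
      apply central_idem
      · have := congrFun hFidem i
        simpa using this
      · intro X
        have := congrFun (hFc (Pi.single i X)) i
        simpa using this
    have hF1 : F = Pi.single i 1 := by
      rcases hFi0 with h | h
      · exfalso
        rw [h, Pi.single_zero] at hFi
        rw [hFi, map_zero] at hF
        have := congrFun hF i
        simp at this
      · rw [hFi, h]
    rw [hF1] at hF
    have hstab : ∀ X, θ (Pi.single i X) = Pi.single i (T X) := by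
      intro X
      have h2 : (Pi.single i X : Prd d) = Pi.single i X * Pi.single i 1 := by
        rw [← single_mul, mul_one]
      rw [h2, hmul, hF]
      ext j : 1
      by_cases h : j = i
      · subst h; simp [hTapp]
      · simp [Pi.mul_apply, Pi.single_eq_of_ne h]
    have hpow : ∀ (k : ℕ) (X), (θ.toLinearMap ^ k) (Pi.single i X) = Pi.single i ((T ^ k) X) := by
      intro k
      induction k with
      | zero => intro X; simp
      | succ k ih =>
        intro X
        rw [pow_succ, pow_succ, Module.End.mul_apply, Module.End.mul_apply]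
        rw [LinearEquiv.coe_coe, hstab, ih]
    have hTN : ∀ X, (T ^ N) X = X := by
      intro X
      have h2 := hpow N X
      rw [hθ] at h2
      exact (Pi.single_injective i h2).symm
    exact anti_trace_le (d i) T hTmul h1 N hN hTN

end Prod


section Grp

variable (G : Type) [Group G] [Finite G] (α : G ≃* G)

/-- The permutation `g ↦ α(g)⁻¹`. -/
def perm : G ≃ G := α.toEquiv.trans (Equiv.inv G)

omit [Finite G] in
theorem perm_apply (g : G) : perm G α g = (α g)⁻¹ := rfl

/-- The anti-automorphism of the group algebra. -/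
noncomputable def th : MonoidAlgebra ℂ G ≃ₗ[ℂ] MonoidAlgebra ℂ G :=
  MonoidAlgebra.mapDomainLinearEquiv ℂ ℂ (perm G α)

omit [Finite G] in
theorem th_single (g : G) (c : ℂ) :
    th G α (MonoidAlgebra.single g c) = MonoidAlgebra.single (perm G α g) c :=
  MonoidAlgebra.mapDomainLinearEquiv_single ..

omit [Finite G] in
theorem th_mul (x y : MonoidAlgebra ℂ G) : th G α (x * y) = th G α y * th G α x := by
  induction x using MonoidAlgebra.induction_linear with
  | zero => simp
  | add a b ha hb => rw [add_mul, map_add, ha, hb, map_add, mul_add]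
  | single g c =>
    induction y using MonoidAlgebra.induction_linear with
    | zero => simp
    | add a b ha hb => rw [mul_add, map_add, ha, hb, map_add, add_mul]
    | single h c' =>
      rw [MonoidAlgebra.single_mul_single, th_single, th_single, th_single,
        MonoidAlgebra.single_mul_single, perm_apply, perm_apply, perm_apply, map_mul, _root_.mul_inv_rev,
        mul_comm c c']

theorem th_trace : LinearMap.trace ℂ (MonoidAlgebra ℂ G) (th G α).toLinearMap =
    (Nat.card {g : G // α g = g⁻¹} : ℂ) := by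
  classical
  have := Fintype.ofFinite G
  rw [LinearMap.trace_eq_matrix_trace ℂ (MonoidAlgebra.basis G ℂ)]
  simp only [Matrix.trace, Matrix.diag_apply, LinearMap.toMatrix_apply]
  have h1 : ∀ g : G, (MonoidAlgebra.basis G ℂ).repr
      ((th G α).toLinearMap ((MonoidAlgebra.basis G ℂ) g)) g =
      if α g = g⁻¹ then (1 : ℂ) else 0 := by
    intro g
    rw [MonoidAlgebra.basis_apply, LinearEquiv.coe_coe, th_single, ← MonoidAlgebra.basis_apply,
      Module.Basis.repr_self, Finsupp.single_apply, perm_apply]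
    by_cases h : α g = g⁻¹
    · simp [h]
    · have : (α g)⁻¹ ≠ g := fun h' => h (inv_eq_iff_eq_inv.mp h')
      simp [h, this]
  rw [Finset.sum_congr rfl (fun g _ => h1 g), Finset.sum_boole, Nat.card_eq_fintype_card,
    Fintype.card_subtype]

theorem th_pow (k : ℕ) (x : MonoidAlgebra ℂ G) (hk : (perm G α) ^ k = 1) :
    ((th G α).toLinearMap ^ k) x = x := by
  have h1 : ∀ (k : ℕ) (g : G) (c : ℂ), ((th G α).toLinearMap ^ k) (MonoidAlgebra.single g c) =
      MonoidAlgebra.single (((perm G α) ^ k : Equiv.Perm G) g) c := by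
    intro k
    induction k with
    | zero => intro g c; simp
    | succ k ih =>
      intro g c
      rw [pow_succ, Module.End.mul_apply, LinearEquiv.coe_coe, th_single, ih, pow_succ]
      rfl
  induction x using MonoidAlgebra.induction_linear with
  | zero => simp
  | add a b ha hb => rw [map_add, ha, hb]
  | single g c =>
    rw [h1, hk]
    rfl


section Reps

open CategoryTheory

variable {n : ℕ} (d : Fin n → ℕ) (Φ : MonoidAlgebra ℂ G ≃ₐ[ℂ] Prd d)

/-- The representation on the `i`-th block. -/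
noncomputable def rep (i : Fin n) : Representation ℂ G (Fin (d i) → ℂ) :=
  ((Matrix.toLinAlgEquiv' (R := ℂ) (n := Fin (d i))).toAlgHom.toMonoidHom.comp
    ((Pi.evalRingHom (fun i => Mat (d i)) i).toMonoidHom.comp
      (Φ.toAlgHom.toMonoidHom.comp (MonoidAlgebra.of ℂ G))))

theorem rep_apply (i : Fin n) (g : G) (v : Fin (d i) → ℂ) :
    rep G d Φ i g v = (Φ (MonoidAlgebra.of ℂ G g) i).mulVec v := rfl

/-- An intertwiner commutes with the whole algebra. -/
theorem inter (i j : Fin n) (f : (Fin (d i) → ℂ) →ₗ[ℂ] (Fin (d j) → ℂ))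
    (hf : ∀ g v, f (rep G d Φ i g v) = rep G d Φ j g (f v)) (a : MonoidAlgebra ℂ G)
    (v : Fin (d i) → ℂ) : f ((Φ a i).mulVec v) = (Φ a j).mulVec (f v) := by
  induction a using MonoidAlgebra.induction_linear with
  | zero => simp
  | add a b ha hb =>
    rw [map_add, Pi.add_apply, Pi.add_apply, Matrix.add_mulVec, Matrix.add_mulVec, map_add, ha, hb]
  | single g c =>
    have h1 : (MonoidAlgebra.single g c : MonoidAlgebra ℂ G) = c • MonoidAlgebra.of ℂ G g := by
      simp
    rw [h1, map_smul, Pi.smul_apply, Pi.smul_apply, Matrix.smul_mulVec, Matrix.smul_mulVec,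
      map_smul]
    congr 1
    exact hf g v

theorem inter_mat (i j : Fin n) (f : (Fin (d i) → ℂ) →ₗ[ℂ] (Fin (d j) → ℂ))
    (hf : ∀ g v, f (rep G d Φ i g v) = rep G d Φ j g (f v)) (a : Prd d)
    (v : Fin (d i) → ℂ) : f ((a i).mulVec v) = (a j).mulVec (f v) := by
  have := inter G d Φ i j f hf (Φ.symm a) v
  rwa [AlgEquiv.apply_symm_apply] at this

theorem inter_ne (i j : Fin n) (hij : i ≠ j) (f : (Fin (d i) → ℂ) →ₗ[ℂ] (Fin (d j) → ℂ))
    (hf : ∀ g v, f (rep G d Φ i g v) = rep G d Φ j g (f v)) : f = 0 := by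
  apply LinearMap.ext
  intro v
  have := inter_mat G d Φ i j f hf (Pi.single i 1) v
  rw [Pi.single_eq_same, Pi.single_eq_of_ne hij.symm] at this
  simpa using this

theorem inter_scalar (i : Fin n) [NeZero (d i)] (f : (Fin (d i) → ℂ) →ₗ[ℂ] (Fin (d i) → ℂ))
    (hf : ∀ g v, f (rep G d Φ i g v) = rep G d Φ i g (f v)) :
    ∃ c : ℂ, f = c • LinearMap.id := by
  have hcomm : ∀ X : Mat (d i), (LinearMap.toMatrix' f) * X = X * LinearMap.toMatrix' f := by
    intro X
    apply Matrix.toLin'.injective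
    rw [Matrix.toLin'_mul, Matrix.toLin'_mul, Matrix.toLin'_toMatrix']
    apply LinearMap.ext
    intro v
    have := inter_mat G d Φ i i f hf (Pi.single i X) v
    rw [Pi.single_eq_same] at this
    simpa using this
  have hmem : LinearMap.toMatrix' f ∈ Subalgebra.center ℂ (Mat (d i)) := by
    rw [Subalgebra.mem_center_iff]
    intro X
    exact (hcomm X).symm
  rw [Algebra.IsCentral.center_eq_bot ℂ (Mat (d i))] at hmem
  obtain ⟨c, hc⟩ := Algebra.mem_bot.mp hmem
  refine ⟨c, ?_⟩
  apply LinearMap.toMatrix'.injective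
  rw [← hc, Algebra.algebraMap_eq_smul_one]
  simp

include Φ in
theorem main_ineq [∀ i, NeZero (d i)] :
    Nat.card {g : G // α g = g⁻¹} ≤ ∑ i, d i := by
  have hfin : Finite (Equiv.Perm G) := inferInstance
  set N := orderOf (perm G α : Equiv.Perm G) with hN
  have hNpos : 0 < N := orderOf_pos _
  set θ : Prd d ≃ₗ[ℂ] Prd d := Φ.toLinearEquiv.symm.trans ((th G α).trans Φ.toLinearEquiv) with hθ
  have happ : ∀ x, θ x = Φ (th G α (Φ.symm x)) := fun x => rfl
  have hmul : ∀ X Y, θ (X * Y) = θ Y * θ X := by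
    intro X Y
    rw [happ, happ, happ, map_mul, th_mul, map_mul]
  have hpow : ∀ k x, (θ.toLinearMap ^ k) x = Φ (((th G α).toLinearMap ^ k) (Φ.symm x)) := by
    intro k
    induction k with
    | zero => intro x; simp
    | succ k ih =>
      intro x
      rw [pow_succ, pow_succ, Module.End.mul_apply, Module.End.mul_apply, ih]
      simp [happ]
  have hθN : ∀ X, (θ.toLinearMap ^ N) X = X := by
    intro X
    rw [hpow, th_pow G α N _ (pow_orderOf_eq_one _), AlgEquiv.apply_symm_apply]
  have htr : LinearMap.trace ℂ (Prd d) θ.toLinearMap = (Nat.card {g : G // α g = g⁻¹} : ℂ) := by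
    rw [← th_trace G α, ← LinearMap.trace_conj' (th G α).toLinearMap Φ.toLinearEquiv]
    rfl
  have hb := trace_bound d θ hmul N hNpos hθN
  rw [htr] at hb
  have h2 : ‖(Nat.card {g : G // α g = g⁻¹} : ℂ)‖ = (Nat.card {g : G // α g = g⁻¹} : ℝ) := by
    simp
  rw [h2] at hb
  exact_mod_cast hb


theorem simple_rep (i : Fin n) [NeZero (d i)] : Simple (FDRep.of (rep G d Φ i)) := by
  have : NeZero (Nat.card G : ℂ) := ⟨by exact_mod_cast Nat.card_pos.ne'⟩
  rw [FDRep.simple_iff_end_is_rank_one]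
  rw [finrank_eq_one_iff_of_nonzero' (𝟙 (FDRep.of (rep G d Φ i)))]
  · intro f
    let L : (Fin (d i) → ℂ) →ₗ[ℂ] (Fin (d i) → ℂ) := f.hom.hom.hom
    have hL : ∀ g v, L (rep G d Φ i g v) = rep G d Φ i g (L v) := by
      intro g v
      have h1 := f.comm g
      have h2 := congrArg (fun k => k.hom.hom v) h1
      exact h2
    obtain ⟨c, hc⟩ := inter_scalar G d Φ i L hL
    refine ⟨c, ?_⟩
    apply Action.Hom.ext
    apply InducedCategory.hom_ext
    apply ModuleCat.hom_ext
    exact hc.symm
  · intro h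
    have h1 : (LinearMap.id : (Fin (d i) → ℂ) →ₗ[ℂ] (Fin (d i) → ℂ)) = 0 :=
      congrArg (fun k => k.hom.hom.hom) h
    have h2 := congrFun (LinearMap.congr_fun h1 (fun _ => (1 : ℂ))) (0 : Fin (d i))
    simp at h2

theorem noniso_rep (i j : Fin n) [NeZero (d i)]
    (h : Nonempty (FDRep.of (rep G d Φ i) ≅ FDRep.of (rep G d Φ j))) : i = j := by
  by_contra hij
  obtain ⟨φ⟩ := h
  have h1 : ∀ g, (FDRep.of (rep G d Φ j)).ρ g =
      (FDRep.isoToLinearEquiv φ).conj ((FDRep.of (rep G d Φ i)).ρ g) := fun g =>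
    FDRep.Iso.conj_ρ φ g
  let L : (Fin (d i) → ℂ) ≃ₗ[ℂ] (Fin (d j) → ℂ) := FDRep.isoToLinearEquiv φ
  have h2 : ∀ g v, L (rep G d Φ i g v) = rep G d Φ j g (L v) := by
    intro g v
    have h3 := h1 g
    rw [FDRep.of_ρ', FDRep.of_ρ'] at h3
    rw [h3]
    simp [L, LinearEquiv.conj_apply]
  have h4 := inter_ne G d Φ i j hij L.toLinearMap h2
  have h5 : (fun _ => (1 : ℂ) : Fin (d i) → ℂ) = 0 := by
    apply L.injective
    rw [map_zero]
    exact LinearMap.congr_fun h4 _
  have h6 := congrFun h5 (0 : Fin (d i))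
  simp at h6

end Reps

open CategoryTheory in
theorem final : ∃ (n : ℕ) (V : Fin n → FDRep ℂ G),
    (∀ i, Simple (V i)) ∧
    (∀ i j, Nonempty (V i ≅ V j) → i = j) ∧
    Nat.card {g : G // α g = g⁻¹} ≤ ∑ i, Module.finrank ℂ (V i) := by
  have : NeZero (Nat.card G : ℂ) := ⟨by exact_mod_cast Nat.card_pos.ne'⟩
  obtain ⟨n, d, hd, ⟨Φ⟩⟩ :=
    IsSemisimpleRing.exists_algEquiv_pi_matrix_of_isAlgClosed ℂ (MonoidAlgebra ℂ G)
  refine ⟨n, fun i => FDRep.of (rep G d Φ i), fun i => ?_, fun i j h => ?_, ?_⟩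
  · have := hd i
    exact simple_rep G d Φ i
  · have := hd i
    exact noniso_rep G d Φ i j h
  · refine (main_ineq G α d Φ).trans (le_of_eq ?_)
    apply Finset.sum_congr rfl
    intro i _
    have : Module.finrank ℂ (Fin (d i) → ℂ) = d i := by simp
    exact this.symm

end Grp

end Pool.Agent.Helper441.CharSum
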