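import Mathlib

set_option autoImplicit false
set_option linter.unusedSectionVars false
set_option linter.unusedSimpArgs false

open scoped InnerProductSpace
open Filter Topology

namespace Pool.Agent.Helper441.TZero

section General

variable {H K : Type} [NormedAddCommGroup H] [InnerProductSpace ℂ H] [CompleteSpace H]
  [NormedAddCommGroup K] [InnerProductSpace ℂ K] [CompleteSpace K]

/-- The nuclear operator `x ↦ ∑ c n ⟪g n, x⟫ f n`. -/
noncomputable def D (c : ℕ → ℂ) (f : ℕ → H) (g : ℕ → K) : K →L[ℂ] H :=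
  ∑' n, c n • (innerSL ℂ (g n)).smulRight (f n)

theorem D_hasSum (c : ℕ → ℂ) (f : ℕ → H) (g : ℕ → K)
    (hs : Summable fun n => ‖c n‖ * (‖g n‖ * ‖f n‖)) (x : K) :
    HasSum (fun n => (c n * ⟪g n, x⟫_ℂ) • f n) (D c f g x) := by
  have h1 : Summable (fun n => c n • (innerSL ℂ (g n)).smulRight (f n)) := by
    apply Summable.of_norm
    refine hs.of_nonneg_of_le (fun n => norm_nonneg _) (fun n => ?_)
    rw [norm_smul]
    gcongr
    rw [ContinuousLinearMap.norm_smulRight_apply, innerSL_apply_norm]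
  have h2 := (ContinuousLinearMap.apply ℂ H x).hasSum h1.hasSum
  have e1 : (fun n => (c n * ⟪g n, x⟫_ℂ) • f n) =
      fun b => ((ContinuousLinearMap.apply ℂ H) x) (c b • ((innerSL ℂ) (g b)).smulRight (f b)) := by
    ext n
    simp [smul_smul]
  rw [e1]
  exact h2

theorem inner_D (c : ℕ → ℂ) (f : ℕ → H) (g : ℕ → K)
    (hs : Summable fun n => ‖c n‖ * (‖g n‖ * ‖f n‖)) (x : K) (y : H) :
    HasSum (fun n => c n * (⟪g n, x⟫_ℂ * ⟪y, f n⟫_ℂ)) ⟪y, D c f g x⟫_ℂ := by
  have h := (innerSL ℂ y).hasSum (D_hasSum c f g hs x)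
  have e1 : (fun n => c n * (⟪g n, x⟫_ℂ * ⟪y, f n⟫_ℂ)) =
      fun b => ((innerSL ℂ) y) ((c b * ⟪g b, x⟫_ℂ) • f b) := by
    ext n
    simp only [innerSL_apply_apply, inner_smul_right]
    ring
  rw [e1]
  exact h

theorem inner_D_biorth (c : ℕ → ℂ) (f f' : ℕ → H) (g : ℕ → K)
    (hb : ∀ m n, ⟪f' m, f n⟫_ℂ = if m = n then 1 else 0)
    (hs : Summable fun n => ‖c n‖ * (‖g n‖ * ‖f n‖)) (x : K) (m : ℕ) :
    ⟪f' m, D c f g x⟫_ℂ = c m * ⟪g m, x⟫_ℂ := by
  have h := inner_D c f g hs x (f' m)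
  have h2 : HasSum (fun n => c n * (⟪g n, x⟫_ℂ * ⟪f' m, f n⟫_ℂ)) (c m * ⟪g m, x⟫_ℂ) := by
    convert hasSum_ite_eq m (c m * ⟪g m, x⟫_ℂ) using 1
    ext n
    rw [hb]
    by_cases hnm : n = m
    · subst hnm; simp
    · have : m ≠ n := fun h => hnm h.symm
      simp [hnm, this]
  exact h.unique h2

theorem D_apply_biorth (c : ℕ → ℂ) (f : ℕ → H) (g g' : ℕ → K)
    (hb : ∀ m n, ⟪g m, g' n⟫_ℂ = if m = n then 1 else 0)
    (hs : Summable fun n => ‖c n‖ * (‖g n‖ * ‖f n‖)) (m : ℕ) :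
    D c f g (g' m) = c m • f m := by
  have h := D_hasSum c f g hs (g' m)
  have h2 : HasSum (fun n => (c n * ⟪g n, g' m⟫_ℂ) • f n) (c m • f m) := by
    convert hasSum_ite_eq m (c m • f m) using 1
    ext n
    rw [hb]
    by_cases hnm : n = m
    · subst hnm; simp
    · simp [hnm]
  exact h.unique h2

/-- Separation of the atoms. -/
theorem sep (lam c : ℕ → ℂ) (hl0 : lam 0 = 0) (hlne : ∀ n, 1 ≤ n → lam n ≠ 0)
    (hdec : ∀ m n, 1 ≤ n → n < m → ‖lam m / lam n‖ < 1)
    (hs : Summable fun n => ‖lam n * c n‖)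
    (h0 : ∀ k : ℕ, HasSum (fun n => lam n ^ (k + 1) * c n) 0) :
    ∀ n, 1 ≤ n → c n = 0 := by
  intro n
  induction n using Nat.strong_induction_on with
  | _ n ih =>
    intro hn
    have hlim : Tendsto (fun k : ℕ => ∑' m, (lam m / lam n) ^ k * (lam m * c m)) atTop
        (𝓝 (∑' m, if m = n then lam n * c n else 0)) := by
      apply tendsto_tsum_of_dominated_convergence hs
      · intro m
        by_cases hmn : m = n
        · subst hmn
          simp [div_self (hlne m hn)]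
        · rw [if_neg hmn]
          rcases Nat.lt_or_gt_of_ne hmn with h | h
          · by_cases hm0 : m = 0
            · subst hm0; simp [hl0]
            · have := ih m h (Nat.one_le_iff_ne_zero.mpr hm0)
              simp [this]
          · have h1 := tendsto_pow_atTop_nhds_zero_of_norm_lt_one (hdec m n hn h)
            simpa using h1.mul_const (lam m * c m)
      · refine Eventually.of_forall (fun k m => ?_)
        by_cases hmn : m < n
        · by_cases hm0 : m = 0
          · subst hm0; simp [hl0]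
          · have := ih m hmn (Nat.one_le_iff_ne_zero.mpr hm0)
            simp [this]
        · have hle : ‖lam m / lam n‖ ≤ 1 := by
            rcases Nat.eq_or_lt_of_le (not_lt.mp hmn) with h | h
            · subst h; simp [div_self (hlne n hn)]
            · exact (hdec m n hn h).le
          rw [norm_mul, norm_pow]
          have : ‖lam m / lam n‖ ^ k ≤ 1 := pow_le_one₀ (norm_nonneg _) hle
          calc _ ≤ 1 * ‖lam m * c m‖ := by gcongr
            _ = _ := one_mul _
    have hzero : ∀ k : ℕ, ∑' m, (lam m / lam n) ^ k * (lam m * c m) = 0 := by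
      intro k
      have h1 := (h0 k).mul_left ((lam n)⁻¹ ^ k)
      have h2 : (fun m => (lam m / lam n) ^ k * (lam m * c m)) =
          fun m => (lam n)⁻¹ ^ k * (lam m ^ (k + 1) * c m) := by
        ext m
        rw [div_eq_mul_inv, mul_pow, pow_succ]
        ring
      rw [h2, h1.tsum_eq, mul_zero]
    simp only [hzero] at hlim
    have h3 := tendsto_nhds_unique hlim tendsto_const_nhds
    rw [tsum_ite_eq] at h3
    exact (mul_eq_zero.mp h3).resolve_left (hlne n hn)

end General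

/-- The Hilbert space `ℓ²(ℕ)`. -/
abbrev Hs : Type := lp (fun _ : ℕ => ℂ) 2

/-- Basis vectors. -/
noncomputable def e (n : ℕ) : Hs := lp.single 2 n (1 : ℂ)

theorem inner_e_left (n : ℕ) (x : Hs) : ⟪e n, x⟫_ℂ = x n := by
  simp [e, lp.inner_single_left]

theorem inner_e_right (n : ℕ) (x : Hs) : ⟪x, e n⟫_ℂ = (starRingEnd ℂ) (x n) := by
  rw [← inner_conj_symm, inner_e_left]

theorem e_apply (m n : ℕ) : (e m : Hs) n = if m = n then 1 else 0 := by
  rw [e, lp.single_apply, Pi.single_apply]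
  simp [eq_comm]

/-- The coefficients. -/
noncomputable def b (n : ℕ) : ℂ :=
  if n = 0 then 0 else if n % 2 = 1 then 2 ^ (2 * n + 4) else 2 ^ (2 * n + 1)

/-- The tridiagonal vectors. -/
noncomputable def t (n : ℕ) : Hs := e n + b (n - 1) • e (n - 1) - b n • e (n + 1)

noncomputable def f (n : ℕ) : Hs := if n % 2 = 1 then e n else t n

noncomputable def g (n : ℕ) : Hs := if n % 2 = 1 then t n else e n

noncomputable def lam (n : ℕ) : ℂ := if n = 0 then 0 else (1 / 8) ^ n

theorem b_conj (n : ℕ) : (starRingEnd ℂ) (b n) = b n := by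
  unfold b
  split_ifs <;> simp [Complex.conj_ofNat]

theorem inner_t_left (n : ℕ) (x : Hs) :
    ⟪t n, x⟫_ℂ = x n + b (n - 1) * x (n - 1) - b n * x (n + 1) := by
  rw [t, inner_sub_left, inner_add_left, inner_smul_left, inner_smul_left, b_conj, b_conj]
  simp only [inner_e_left]

theorem inner_t_right (n : ℕ) (y : Hs) :
    ⟪y, t n⟫_ℂ = (starRingEnd ℂ) (y n) + b (n - 1) * (starRingEnd ℂ) (y (n - 1))
      - b n * (starRingEnd ℂ) (y (n + 1)) := by
  rw [t, inner_sub_right, inner_add_right, inner_smul_right, inner_smul_right]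
  simp only [inner_e_right]

theorem b_zero : b 0 = 0 := by simp [b]

theorem biorth (m n : ℕ) : ⟪g m, f n⟫_ℂ = if m = n then 1 else 0 := by
  rcases Nat.mod_two_eq_zero_or_one m with hm | hm <;>
  rcases Nat.mod_two_eq_zero_or_one n with hn | hn
  · -- m even n even
    rw [g, f, if_neg (by omega), if_neg (by omega), inner_t_right]
    simp only [e_apply]
    by_cases h : m = n
    · subst h
      rcases Nat.eq_zero_or_pos m with h0 | h0
      · subst h0; simp [b_zero]
      · have h1 : m ≠ m - 1 := by omega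
        simp [h1]
    · have h1 : m ≠ n + 1 := by omega
      rcases Nat.eq_zero_or_pos n with h0 | h0
      · subst h0; simp [b_zero, h, h1]
      · have h2 : m ≠ n - 1 := by omega
        simp [h, h1, h2]
  · rw [g, f, if_neg (by omega), if_pos hn, inner_e_left, e_apply]
    by_cases h : m = n
    · simp [h]
    · have : n ≠ m := fun h' => h h'.symm
      simp [h, this]
  · -- m odd, n even
    rw [g, f, if_pos hm, if_neg (by omega), inner_t_left]
    have hne : m ≠ n := by omega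
    rw [if_neg hne]
    simp only [t]
    have key : ∀ j, ((e n + b (n - 1) • e (n - 1) - b n • e (n + 1) : Hs) : ℕ → ℂ) j =
        (if n = j then 1 else 0) + b (n - 1) * (if n - 1 = j then 1 else 0)
          - b n * (if n + 1 = j then 1 else 0) := by
      intro j
      simp only [lp.coeFn_sub, lp.coeFn_add, lp.coeFn_smul, Pi.sub_apply, Pi.add_apply,
        Pi.smul_apply, e_apply, smul_eq_mul]
    rw [key, key, key]
    rcases Nat.eq_zero_or_pos n with h0 | h0
    · subst h0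
      simp only [b_zero]
      rcases Nat.eq_or_lt_of_le (show 1 ≤ m by omega) with h1 | h1
      · subst h1; simp [b_zero]
      · have h2 : 0 ≠ m := by omega
        have h3 : (0:ℕ) ≠ m - 1 := by omega
        simp [h2, h3]
    · by_cases h1 : n = m + 1
      · subst h1
        have a1 : m + 1 ≠ m := by omega
        have a2 : m + 1 - 1 = m := by omega
        have a3 : m + 1 + 1 ≠ m := by omega
        have a4 : m + 1 ≠ m - 1 := by omega
        have a5 : m ≠ m - 1 := by omega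
        have a6 : m + 1 + 1 ≠ m - 1 := by omega
        have a7 : m ≠ m + 1 := by omega
        simp [a1, a2, a3, a4, a5, a6, a7]
      · by_cases h2 : m = n + 1
        · subst h2
          have a1 : n ≠ n + 1 := by omega
          have a2 : n - 1 ≠ n + 1 := by omega
          have a3 : n - 1 ≠ n := by omega
          have a4 : n ≠ n + 1 + 1 := by omega
          have a5 : n - 1 ≠ n + 1 + 1 := by omega
          have a6 : n + 1 ≠ n + 1 + 1 := by omega
          simp [a1, a2, a3, a4, a5]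
        · have a1 : n ≠ m := by omega
          have a2 : n - 1 ≠ m := by omega
          have a3 : n + 1 ≠ m := by omega
          have a4 : n ≠ m - 1 := by omega
          have a5 : n - 1 ≠ m - 1 := by omega
          have a6 : n + 1 ≠ m - 1 := by omega
          have a7 : n - 1 ≠ m + 1 := by omega
          have a8 : n ≠ m := by omega
          simp [a1, a2, a3, a4, a5, a6, a7, h1]
  · rw [g, f, if_pos hm, if_pos hn, inner_t_left]
    simp only [e_apply]
    by_cases h : m = n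
    · subst h
      have h1 : m ≠ m - 1 := by omega
      simp [h1]
    · have h1 : n ≠ m := fun h' => h h'.symm
      have h2 : n ≠ m - 1 := by omega
      have h3 : n ≠ m + 1 := by omega
      simp [h, h1, h2, h3]


theorem norm_e (n : ℕ) : ‖e n‖ = 1 := by
  simp [e, lp.norm_single]

theorem norm_b_le (n : ℕ) : ‖b n‖ ≤ 2 ^ (2 * n + 4) := by
  unfold b
  split_ifs
  · simp
  · simp
  · rw [norm_pow]
    simp only [Complex.norm_ofNat]
    exact pow_le_pow_right₀ (by norm_num) (by omega)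

theorem norm_t_le (n : ℕ) : ‖t n‖ ≤ 33 * 4 ^ n := by
  have h1 := norm_b_le n
  have h2 := norm_b_le (n - 1)
  have h3 : (2 : ℝ) ^ (2 * (n - 1) + 4) ≤ 2 ^ (2 * n + 4) :=
    pow_le_pow_right₀ (by norm_num) (by omega)
  have h4 : (2 : ℝ) ^ (2 * n + 4) = 16 * 4 ^ n := by
    rw [pow_add, pow_mul]; norm_num; ring
  have h5 : (1 : ℝ) ≤ 4 ^ n := one_le_pow₀ (by norm_num)
  calc ‖t n‖ ≤ ‖e n + b (n - 1) • e (n - 1)‖ + ‖b n • e (n + 1)‖ := norm_sub_le _ _
    _ ≤ ‖e n‖ + ‖b (n - 1) • e (n - 1)‖ + ‖b n • e (n + 1)‖ := by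
        gcongr; exact norm_add_le _ _
    _ = 1 + ‖b (n - 1)‖ + ‖b n‖ := by
        rw [norm_smul, norm_smul, norm_e, norm_e, norm_e]; ring
    _ ≤ 33 * 4 ^ n := by linarith

theorem norm_f_le (n : ℕ) : ‖f n‖ ≤ 33 * 4 ^ n := by
  unfold f
  split_ifs
  · rw [norm_e]
    have h5 : (1 : ℝ) ≤ 4 ^ n := one_le_pow₀ (by norm_num)
    linarith
  · exact norm_t_le n

theorem norm_g_le (n : ℕ) : ‖g n‖ ≤ 33 * 4 ^ n := by
  unfold g
  split_ifs
  · exact norm_t_le n
  · rw [norm_e]
    have h5 : (1 : ℝ) ≤ 4 ^ n := one_le_pow₀ (by norm_num)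
    linarith

theorem norm_gf_le (n : ℕ) : ‖g n‖ * ‖f n‖ ≤ 33 * 4 ^ n := by
  unfold f g
  split_ifs
  · rw [norm_e, mul_one]; exact norm_t_le n
  · rw [norm_e, one_mul]; exact norm_t_le n

theorem norm_lam_le (n : ℕ) : ‖lam n‖ ≤ (1 / 8) ^ n := by
  unfold lam
  split_ifs
  · simp
  · rw [norm_pow]; simp

theorem summable_base : Summable fun n : ℕ => (1 / 8 : ℝ) ^ n * (33 * 4 ^ n) := by
  have : (fun n : ℕ => (1 / 8 : ℝ) ^ n * (33 * 4 ^ n)) = fun n => 33 * (1 / 2 : ℝ) ^ n := by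
    ext n
    have : (1 / 8 : ℝ) ^ n * 4 ^ n = (1 / 2) ^ n := by rw [← mul_pow]; norm_num
    rw [← this]; ring
  rw [this]
  exact (summable_geometric_of_lt_one (by norm_num) (by norm_num)).mul_left 33

theorem sum_T : Summable fun n => ‖lam n‖ * (‖g n‖ * ‖f n‖) :=
  summable_base.of_nonneg_of_le (fun n => by positivity)
    (fun n => mul_le_mul (norm_lam_le n) (norm_gf_le n) (by positivity) (by positivity))

theorem sum_N : Summable fun n => ‖lam n‖ * (‖e n‖ * ‖e n‖) :=
  summable_base.of_nonneg_of_le (fun n => by positivity)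
    (fun n => by
      have h5 : (1 : ℝ) ≤ 4 ^ n := one_le_pow₀ (by norm_num)
      refine mul_le_mul (norm_lam_le n) ?_ (by positivity) (by positivity)
      rw [norm_e]; linarith)

/-- nonzero weights -/
noncomputable def d (n : ℕ) : ℂ := (1 / 8) ^ n

theorem d_ne (n : ℕ) : d n ≠ 0 := by unfold d; exact pow_ne_zero _ (by norm_num)

theorem norm_d (n : ℕ) : ‖d n‖ = (1 / 8) ^ n := by
  unfold d; rw [norm_pow]; simp

theorem sum_X : Summable fun n => ‖d n‖ * (‖g n‖ * ‖e n‖) :=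
  summable_base.of_nonneg_of_le (fun n => by positivity)
    (fun n => by
      rw [norm_d, norm_e, mul_one]
      exact mul_le_mul le_rfl (norm_g_le n) (by positivity) (by positivity))

theorem sum_Y : Summable fun n => ‖d n‖ * (‖e n‖ * ‖f n‖) :=
  summable_base.of_nonneg_of_le (fun n => by positivity)
    (fun n => by
      rw [norm_d, norm_e, one_mul]
      exact mul_le_mul le_rfl (norm_f_le n) (by positivity) (by positivity))

/-- The counterexample. -/
noncomputable def T : Hs →L[ℂ] Hs := D lam f g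
/-- The diagonal operator. -/
noncomputable def N : Hs →L[ℂ] Hs := D lam e e
noncomputable def X : Hs →L[ℂ] Hs := D d e g
noncomputable def Y : Hs →L[ℂ] Hs := D d f e

theorem biorth_e (m n : ℕ) : ⟪e m, e n⟫_ℂ = if m = n then 1 else 0 := by
  rw [inner_e_left, e_apply]
  by_cases h : m = n
  · simp [h]
  · have : n ≠ m := fun h' => h h'.symm
    simp [h, this]

theorem inner_g_T (n : ℕ) (x : Hs) : ⟪g n, T x⟫_ℂ = lam n * ⟪g n, x⟫_ℂ :=
  inner_D_biorth lam f g g biorth sum_T x n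

theorem inner_e_N (n : ℕ) (x : Hs) : ⟪e n, N x⟫_ℂ = lam n * ⟪e n, x⟫_ℂ :=
  inner_D_biorth lam e e e biorth_e sum_N x n

theorem inner_e_X (n : ℕ) (x : Hs) : ⟪e n, X x⟫_ℂ = d n * ⟪g n, x⟫_ℂ :=
  inner_D_biorth d e e g biorth_e sum_X x n

theorem inner_g_Y (n : ℕ) (x : Hs) : ⟪g n, Y x⟫_ℂ = d n * ⟪e n, x⟫_ℂ :=
  inner_D_biorth d f g e biorth sum_Y x n

theorem XT : X.comp T = N.comp X := by
  ext x : 1
  simp only [ContinuousLinearMap.comp_apply]
  have h1 := D_hasSum d e g sum_X (T x)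
  have h2 := D_hasSum lam e e sum_N (X x)
  have e1 : (fun n => (d n * ⟪g n, T x⟫_ℂ) • e n) = fun n => (lam n * ⟪e n, X x⟫_ℂ) • e n := by
    ext n : 1
    rw [inner_g_T, inner_e_X]
    ring_nf
  rw [e1] at h1
  exact h1.unique h2

theorem TY : T.comp Y = Y.comp N := by
  ext x : 1
  simp only [ContinuousLinearMap.comp_apply]
  have h1 := D_hasSum d f e sum_Y (N x)
  have h2 := D_hasSum lam f g sum_T (Y x)
  have e1 : (fun n => (d n * ⟪e n, N x⟫_ℂ) • f n) = fun n => (lam n * ⟪g n, Y x⟫_ℂ) • f n := by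
    ext n : 1
    rw [inner_e_N, inner_g_Y]
    ring_nf
  rw [e1] at h1
  exact h2.unique h1

theorem eq_zero_of_coord (x : Hs) (h : ∀ n, x n = 0) : x = 0 := by
  ext n
  simpa using h n

theorem eq_zero_of_g (x : Hs) (h : ∀ n, ⟪g n, x⟫_ℂ = 0) : x = 0 := by
  have he : ∀ n, n % 2 = 0 → x n = 0 := by
    intro n hn
    have := h n
    rwa [g, if_neg (by omega), inner_e_left] at this
  apply eq_zero_of_coord
  intro n
  rcases Nat.mod_two_eq_zero_or_one n with hn | hn
  · exact he n hn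
  · have := h n
    rw [g, if_pos hn, inner_t_left, he (n - 1) (by omega), he (n + 1) (by omega)] at this
    simpa using this

theorem X_inj : Function.Injective X := by
  rw [injective_iff_map_eq_zero]
  intro x hx
  apply eq_zero_of_g
  intro n
  have h := inner_e_X n x
  rw [hx, inner_zero_right] at h
  exact (mul_eq_zero.mp h.symm).resolve_left (d_ne n)

theorem Y_inj : Function.Injective Y := by
  rw [injective_iff_map_eq_zero]
  intro x hx
  apply eq_zero_of_coord
  intro n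
  have h := inner_g_Y n x
  rw [hx, inner_zero_right, inner_e_left] at h
  exact (mul_eq_zero.mp h.symm).resolve_left (d_ne n)

theorem dense_of_perp (A : Hs →L[ℂ] Hs) (h : ∀ y : Hs, (∀ x, ⟪y, A x⟫_ℂ = 0) → y = 0) :
    DenseRange A := by
  have h1 : (LinearMap.range (A : Hs →ₗ[ℂ] Hs))ᗮ = ⊥ := by
    rw [Submodule.eq_bot_iff]
    intro y hy
    apply h
    intro x
    rw [Submodule.mem_orthogonal'] at hy
    exact hy _ ⟨x, rfl⟩
  have h2 := (Submodule.topologicalClosure_eq_top_iff).mpr h1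
  have h3 : Dense ((LinearMap.range (A : Hs →ₗ[ℂ] Hs) : Submodule ℂ Hs) : Set Hs) := by
    rw [dense_iff_closure_eq, ← Submodule.topologicalClosure_coe, h2]; rfl
  rw [LinearMap.coe_range] at h3
  exact h3

theorem X_dense : DenseRange X := by
  apply dense_of_perp
  intro y hy
  apply eq_zero_of_coord
  intro n
  have h1 := hy (f n)
  rw [X, D_apply_biorth d e g f biorth sum_X n, inner_smul_right, inner_e_right] at h1
  have := (mul_eq_zero.mp h1).resolve_left (d_ne n)
  simpa using this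

theorem Y_dense : DenseRange Y := by
  apply dense_of_perp
  intro y hy
  have hf : ∀ n, ⟪y, f n⟫_ℂ = 0 := by
    intro n
    have h1 := hy (e n)
    rw [Y, D_apply_biorth d f e e biorth_e sum_Y n, inner_smul_right] at h1
    exact (mul_eq_zero.mp h1).resolve_left (d_ne n)
  have he : ∀ n, n % 2 = 1 → y n = 0 := by
    intro n hn
    have := hf n
    rw [f, if_pos hn, inner_e_right] at this
    simpa using this
  apply eq_zero_of_coord
  intro n
  rcases Nat.mod_two_eq_zero_or_one n with hn | hn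
  · have := hf n
    rw [f, if_neg (by omega), inner_t_right, he (n + 1) (by omega)] at this
    rcases Nat.eq_zero_or_pos n with h0 | h0
    · subst h0
      simpa [b_zero] using this
    · rw [he (n - 1) (by omega)] at this
      simpa using this
  · exact he n hn

theorem lam_conj (n : ℕ) : (starRingEnd ℂ) (lam n) = lam n := by
  unfold lam
  split_ifs <;> simp [Complex.conj_ofNat]

theorem N_normal : IsStarNormal N := by
  have : IsSelfAdjoint N := by
    rw [ContinuousLinearMap.isSelfAdjoint_iff_isSymmetric]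
    intro x y
    have h1 := inner_D lam e e sum_N y x
    have h2 := inner_D lam e e sum_N x y
    have h3 := (Complex.hasSum_conj'.mpr h2)
    have e1 : (fun n => lam n * (⟪e n, y⟫_ℂ * ⟪x, e n⟫_ℂ)) =
      fun n => (starRingEnd ℂ) (lam n * (⟪e n, x⟫_ℂ * ⟪y, e n⟫_ℂ)) := by
      ext n
      rw [map_mul, map_mul, inner_conj_symm, inner_conj_symm, lam_conj]
      ring
    rw [e1] at h1
    have h4 : ⟪x, D lam e e y⟫_ℂ = (starRingEnd ℂ) ⟪y, D lam e e x⟫_ℂ := h1.unique h3
    rw [inner_conj_symm] at h4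
    exact h4.symm
  exact this.isStarNormal


theorem lam_zero : lam 0 = 0 := by simp [lam]

theorem lam_ne (n : ℕ) (hn : 1 ≤ n) : lam n ≠ 0 := by
  unfold lam
  rw [if_neg (by omega)]
  exact pow_ne_zero _ (by norm_num)

theorem lam_dec (m n : ℕ) (hn : 1 ≤ n) (hnm : n < m) : ‖lam m / lam n‖ < 1 := by
  unfold lam
  rw [if_neg (by omega), if_neg (by omega), norm_div, norm_pow, norm_pow]
  have h1 : ‖(1 / 8 : ℂ)‖ = 1 / 8 := by simp
  rw [h1, div_lt_one (by positivity)]
  exact pow_lt_pow_right_of_lt_one₀ (by norm_num) (by norm_num) hnm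

theorem inner_g_Tpow (n k : ℕ) (x : Hs) : ⟪g n, (T ^ k) x⟫_ℂ = lam n ^ k * ⟪g n, x⟫_ℂ := by
  induction k with
  | zero => simp
  | succ k ih =>
    rw [pow_succ', mul_apply_eq_comp, inner_g_T, ih, pow_succ']
    ring

theorem inner_Tpow (k : ℕ) (x y : Hs) :
    HasSum (fun n => lam n ^ (k + 1) * (⟪g n, x⟫_ℂ * ⟪y, f n⟫_ℂ)) ⟪y, (T ^ (k + 1)) x⟫_ℂ := by
  have h := inner_D lam f g sum_T ((T ^ k) x) y
  rw [pow_succ', mul_apply_eq_comp]
  have e1 : (fun n => lam n ^ (k + 1) * (⟪g n, x⟫_ℂ * ⟪y, f n⟫_ℂ)) =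
      fun n => lam n * (⟪g n, (T ^ k) x⟫_ℂ * ⟪y, f n⟫_ℂ) := by
    ext n
    rw [inner_g_Tpow, pow_succ']
    ring
  rw [e1]
  exact h

theorem sum_coef (x y : Hs) : Summable fun n => ‖lam n * (⟪g n, x⟫_ℂ * ⟪y, f n⟫_ℂ)‖ := by
  have := (sum_T.mul_left (‖x‖ * ‖y‖))
  refine this.of_nonneg_of_le (fun n => norm_nonneg _) (fun n => ?_)
  rw [norm_mul, norm_mul]
  have h1 : ‖⟪g n, x⟫_ℂ‖ ≤ ‖g n‖ * ‖x‖ := norm_inner_le_norm _ _
  have h2 : ‖⟪y, f n⟫_ℂ‖ ≤ ‖y‖ * ‖f n‖ := norm_inner_le_norm _ _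
  calc ‖lam n‖ * (‖⟪g n, x⟫_ℂ‖ * ‖⟪y, f n⟫_ℂ‖)
      ≤ ‖lam n‖ * ((‖g n‖ * ‖x‖) * (‖y‖ * ‖f n‖)) := by gcongr
    _ = _ := by ring

/-- If `y` is orthogonal to `T^k x` for all `k ≥ 1`, all the coefficients vanish. -/
theorem coef_zero (x y : Hs) (h : ∀ k : ℕ, ⟪y, (T ^ (k + 1)) x⟫_ℂ = 0) :
    ∀ n, 1 ≤ n → ⟪g n, x⟫_ℂ * ⟪y, f n⟫_ℂ = 0 := by
  apply sep lam _ lam_zero lam_ne lam_dec (sum_coef x y)
  intro k
  have := inner_Tpow k x y
  rwa [h k] at this

theorem coord_tendsto (x : Hs) : Tendsto (fun n => ‖x n‖) atTop (𝓝 0) := by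
  have h := (lp.hasSum_inner (𝕜 := ℂ) (G := fun _ : ℕ => ℂ) x x).summable.tendsto_atTop_zero
  have h2 : Tendsto (fun n => ‖x n‖ ^ 2) atTop (𝓝 0) := by
    have h3 := h.norm
    rw [norm_zero] at h3
    refine h3.congr (fun n => ?_)
    rw [inner_self_eq_norm_sq_to_K]
    simp
  have h4 := h2.sqrt
  simpa [Real.sqrt_sq] using h4

/-- The rank-one annihilator statement. -/
theorem rank_one (x y : Hs) (h : ∀ n, 1 ≤ n → ⟪g n, x⟫_ℂ * ⟪y, f n⟫_ℂ = 0) :
    ⟪y, x⟫_ℂ = (starRingEnd ℂ) (y 0) * x 0 := by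
  set u : ℕ → ℂ := fun n => (starRingEnd ℂ) (y n) with hu
  set w : ℕ → ℂ := fun n => if n % 2 = 1 then u n else x n with hw
  have hsum : ∀ n, ∑ m ∈ Finset.range n, u (m + 1) * x (m + 1) = b n * (w n * w (n + 1)) := by
    intro n
    induction n with
    | zero => simp [b_zero]
    | succ n ih =>
      rw [Finset.sum_range_succ, ih]
      have hn := h (n + 1) (by omega)
      rcases Nat.mod_two_eq_zero_or_one n with hp | hp
      · rw [g, f, if_pos (by omega), if_pos (by omega), inner_t_left, inner_e_right] at hn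
        have w1 : w n = x n := by simp [hw, hp]
        have w2 : w (n + 1) = u (n + 1) := by
          simp only [hw]; rw [if_pos (by omega)]
        have w3 : w (n + 1 + 1) = x (n + 1 + 1) := by
          simp only [hw]; rw [if_neg (by omega)]
        rw [w1, w2, w3]
        have w4 : (starRingEnd ℂ) (y (n + 1)) = u (n + 1) := rfl
        rw [w4, show n + 1 - 1 = n by omega] at hn
        linear_combination hn
      · rw [g, f, if_neg (by omega), if_neg (by omega), inner_t_right, inner_e_left] at hn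
        have w1 : w n = u n := by simp [hw, hp]
        have w2 : w (n + 1) = x (n + 1) := by
          simp only [hw]; rw [if_neg (by omega)]
        have w3 : w (n + 1 + 1) = u (n + 1 + 1) := by
          simp only [hw]; rw [if_pos (by omega)]
        rw [w1, w2, w3]
        have w4 : ∀ j, (starRingEnd ℂ) (y j) = u j := fun j => rfl
        rw [w4, w4, w4, show n + 1 - 1 = n by omega] at hn
        linear_combination hn
  have hS : HasSum (fun n => u n * x n) ⟪y, x⟫_ℂ := by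
    have h1 := lp.hasSum_inner (𝕜 := ℂ) (G := fun _ : ℕ => ℂ) y x
    have e1 : (fun n => u n * x n) = fun i => ⟪y i, x i⟫_ℂ := by
      ext n
      simp [hu, mul_comm]
    rw [e1]
    exact h1
  have hS1 : HasSum (fun n => u (n + 1) * x (n + 1)) (⟪y, x⟫_ℂ - u 0 * x 0) := by
    have := (hasSum_nat_add_iff' (f := fun n => u n * x n) (g := ⟪y, x⟫_ℂ) 1).mpr hS
    simpa using this
  have hlim : Tendsto (fun n => b n * (w n * w (n + 1))) atTop (𝓝 (⟪y, x⟫_ℂ - u 0 * x 0)) := by
    have := hS1.tendsto_sum_nat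
    simpa only [hsum] using this
  have hwlim : Tendsto (fun n => ‖w n‖) atTop (𝓝 0) := by
    have h1 := (coord_tendsto x).add (coord_tendsto y)
    rw [add_zero] at h1
    refine squeeze_zero (fun n => norm_nonneg _) (fun n => ?_) h1
    simp only [hw]
    split_ifs
    · simp only [hu, RCLike.norm_conj]
      linarith [norm_nonneg (x n)]
    · linarith [norm_nonneg (y n)]
  by_contra hne
  set τ := ⟪y, x⟫_ℂ - u 0 * x 0 with hτ
  have hτ0 : τ ≠ 0 := by
    intro h0
    apply hne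
    have : ⟪y, x⟫_ℂ = u 0 * x 0 := by linear_combination h0
    exact this
  have hpos : 0 < ‖τ‖ := norm_pos_iff.mpr hτ0
  obtain ⟨N0, hN0⟩ := (Metric.tendsto_atTop.mp hlim) (‖τ‖ / 4) (by linarith)
  have hlow : ∀ n, N0 ≤ n → 3 / 4 * ‖τ‖ ≤ ‖b n * (w n * w (n + 1))‖ := by
    intro n hn
    have h1 := hN0 n hn
    rw [dist_eq_norm] at h1
    have h2 := norm_sub_norm_le τ (τ - b n * (w n * w (n + 1)))
    rw [norm_sub_rev τ (b n * (w n * w (n + 1)))] at h2
    have h3 : τ - (τ - b n * (w n * w (n + 1))) = b n * (w n * w (n + 1)) := by ring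
    rw [h3] at h2
    linarith
  have hup : ∀ n, N0 ≤ n → ‖b n * (w n * w (n + 1))‖ ≤ 5 / 4 * ‖τ‖ := by
    intro n hn
    have h1 := hN0 n hn
    rw [dist_eq_norm] at h1
    have h2 := norm_sub_norm_le (b n * (w n * w (n + 1))) τ
    linarith
  -- odd indices are nondecreasing
  have hstep : ∀ N : ℕ, N0 ≤ 2 * N + 1 → ‖w (2 * N + 1)‖ ≤ ‖w (2 * (N + 1) + 1)‖ := by
    intro N hN
    have h1 := hup (2 * N + 1) hN
    have h2 := hlow (2 * N + 2) (by omega)
    have hb1 : ‖b (2 * N + 1)‖ = 2 ^ (4 * N + 6) := by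
      unfold b
      rw [if_neg (by omega), if_pos (by omega), norm_pow]
      simp only [Complex.norm_ofNat]
      congr 1
      omega
    have hb2 : ‖b (2 * N + 2)‖ = 2 ^ (4 * N + 5) := by
      unfold b
      rw [if_neg (by omega), if_neg (by omega), norm_pow]
      simp only [Complex.norm_ofNat]
      congr 1
      omega
    rw [norm_mul, norm_mul, hb1] at h1
    rw [norm_mul, norm_mul, hb2] at h2
    have e1 : (2 : ℝ) ^ (4 * N + 6) = 2 * 2 ^ (4 * N + 5) := by ring
    rw [e1] at h1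
    have e2 : 2 * (N + 1) + 1 = 2 * N + 2 + 1 := by ring
    have e3 : 2 * N + 1 + 1 = 2 * N + 2 := by ring
    rw [e2]
    rw [e3] at h1
    set B : ℝ := 2 ^ (4 * N + 5) with hB
    have hBpos : 0 < B := by positivity
    set p := ‖w (2 * N + 1)‖
    set q := ‖w (2 * N + 2)‖
    set r := ‖w (2 * N + 2 + 1)‖
    have hp0 : 0 ≤ p := norm_nonneg _
    have hq0 : 0 ≤ q := norm_nonneg _
    have hr0 : 0 ≤ r := norm_nonneg _
    by_contra hlt
    push Not at hlt
    have h3 : q * r ≤ q * p := mul_le_mul_of_nonneg_left hlt.le hq0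
    have h4 : B * (q * r) ≤ B * (q * p) := mul_le_mul_of_nonneg_left h3 hBpos.le
    have h5 : 2 * B * (p * q) = 2 * (B * (q * p)) := by ring
    rw [h5] at h1
    nlinarith
  have hmono : ∀ j : ℕ, ‖w (2 * N0 + 1)‖ ≤ ‖w (2 * (N0 + j) + 1)‖ := by
    intro j
    induction j with
    | zero => simp
    | succ j ih =>
      refine ih.trans ?_
      have := hstep (N0 + j) (by omega)
      simpa [add_assoc] using this
  have hposw : 0 < ‖w (2 * N0 + 1)‖ := by
    rw [norm_pos_iff]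
    intro h0
    have := hlow (2 * N0 + 1) (by omega)
    rw [h0] at this
    simp at this
    linarith
  have hcomp : Tendsto (fun j : ℕ => ‖w (2 * (N0 + j) + 1)‖) atTop (𝓝 0) := by
    apply hwlim.comp
    apply tendsto_atTop_mono (f := fun j : ℕ => j)
    · intro j; omega
    · exact tendsto_id
  have := ge_of_tendsto' hcomp hmono
  linarith


/-- The projection on the zeroth coordinate. -/
noncomputable def S : Hs →L[ℂ] Hs := (innerSL ℂ (e 0)).smulRight (e 0)

theorem S_apply (x : Hs) : S x = x 0 • e 0 := by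
  simp [S, inner_e_left]

theorem mem_of_perp (E : Submodule ℂ Hs) (hE : IsClosed (E : Set Hs)) (v : Hs)
    (h : ∀ y ∈ Eᗮ, ⟪y, v⟫_ℂ = 0) : v ∈ E := by
  have : CompleteSpace E := hE.completeSpace_coe
  rw [← Submodule.orthogonal_orthogonal E, Submodule.mem_orthogonal]
  exact h

theorem pow_mem_inv (E : Submodule ℂ Hs) (hT : ∀ x ∈ E, T x ∈ E) (x : Hs) (hx : x ∈ E) (k : ℕ) :
    (T ^ k) x ∈ E := by
  induction k with
  | zero => simpa using hx
  | succ k ih =>
    rw [pow_succ', mul_apply_eq_comp]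
    exact hT _ ih

theorem perp_coef (E : Submodule ℂ Hs) (hT : ∀ x ∈ E, T x ∈ E) (x : Hs) (hx : x ∈ E)
    (y : Hs) (hy : y ∈ Eᗮ) : ∀ n, 1 ≤ n → ⟪g n, x⟫_ℂ * ⟪y, f n⟫_ℂ = 0 := by
  apply coef_zero
  intro k
  exact (Submodule.mem_orthogonal' E y).mp hy _ (pow_mem_inv E hT x hx (k + 1))

theorem S_mem (E : Submodule ℂ Hs) (hE : IsClosed (E : Set Hs)) (hT : ∀ x ∈ E, T x ∈ E)
    (x : Hs) (hx : x ∈ E) : S x ∈ E := by
  apply mem_of_perp E hE
  intro y hy
  have h1 := rank_one x y (perp_coef E hT x hx y hy)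
  have h2 : ⟪y, x⟫_ℂ = 0 := (Submodule.mem_orthogonal' E y).mp hy x hx
  rw [S_apply, inner_smul_right, inner_e_right]
  rw [h2] at h1
  rw [mul_comm]
  exact h1.symm

/-- An element of `ℓ²` from a geometrically bounded sequence. -/
theorem memlp_of_le (a : ℕ → ℂ) (ha : ∀ n, ‖a n‖ ≤ 4 * (1 / 2) ^ n) :
    Memℓp (E := fun _ : ℕ => ℂ) a 2 := by
  apply memℓp_gen
  have h0 : (fun n => ‖a n‖ ^ (2 : ENNReal).toReal) = fun n => ‖a n‖ ^ 2 := by
    ext n; simp
  rw [h0]
  have h1 : Summable fun n : ℕ => 16 * (1 / 4 : ℝ) ^ n :=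
    (summable_geometric_of_lt_one (by norm_num) (by norm_num)).mul_left 16
  refine h1.of_nonneg_of_le (fun n => by positivity) (fun n => ?_)
  have h2 : ‖a n‖ ^ 2 ≤ (4 * (1 / 2) ^ n) ^ 2 :=
    pow_le_pow_left₀ (norm_nonneg _) (ha n) 2
  have h3 : (4 * (1 / 2 : ℝ) ^ n) ^ 2 = 16 * (1 / 4) ^ n := by
    rw [mul_pow, ← pow_mul, mul_comm n 2, pow_mul]; norm_num
  linarith

/-- The two coordinates of the directions, period 4. -/
noncomputable def c1 (n : ℕ) : ℂ :=
  if n % 4 = 1 then 1 else if n % 4 = 2 then 1 / 8 else if n % 4 = 3 then 0 else 1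
noncomputable def c2 (n : ℕ) : ℂ :=
  if n % 4 = 1 then 0 else if n % 4 = 2 then 1 else if n % 4 = 3 then 1 else 1 / 8

theorem c1_norm (n : ℕ) : ‖c1 n‖ ≤ 1 := by
  unfold c1; split_ifs <;> simp <;> norm_num
theorem c2_norm (n : ℕ) : ‖c2 n‖ ≤ 1 := by
  unfold c2; split_ifs <;> simp <;> norm_num

theorem c1_conj (n : ℕ) : (starRingEnd ℂ) (c1 n) = c1 n := by
  unfold c1; split_ifs <;> simp [Complex.conj_ofNat]
theorem c2_conj (n : ℕ) : (starRingEnd ℂ) (c2 n) = c2 n := by
  unfold c2; split_ifs <;> simp [Complex.conj_ofNat]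

theorem half_conj (n : ℕ) : (starRingEnd ℂ) ((1 / 2 : ℂ) ^ n) = (1 / 2 : ℂ) ^ n := by
  simp [Complex.conj_ofNat]

/-- `w_n · w_{n+1} = 1 / b_n`. -/
theorem ww (n : ℕ) (hn : 1 ≤ n) :
    b n * ((1 / 2) ^ n * (1 / 2) ^ (n + 1) * (c1 n * c1 (n + 1) + c2 n * c2 (n + 1))) = 1 := by
  have hpow : (2 : ℂ) ^ (2 * n) * ((1 / 2) ^ n * (1 / 2) ^ n) = 1 := by
    rw [← mul_pow, pow_mul, ← mul_pow]; norm_num
  have h4 : n % 4 = 0 ∨ n % 4 = 1 ∨ n % 4 = 2 ∨ n % 4 = 3 := by omega
  rcases h4 with h | h | h | h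
  · have e1 : (n + 1) % 4 = 1 := by omega
    unfold b c1 c2
    rw [if_neg (by omega), if_neg (by omega)]
    simp only [h, e1]
    norm_num
    have : (2 : ℂ) ^ (2 * n + 1) * ((1 / 2) ^ n * (1 / 2) ^ (n + 1)) =
      (2 : ℂ) ^ (2 * n) * ((1 / 2) ^ n * (1 / 2) ^ n) := by ring
    rw [this]; exact hpow
  · have e1 : (n + 1) % 4 = 2 := by omega
    unfold b c1 c2
    rw [if_neg (by omega), if_pos (by omega)]
    simp only [h, e1]
    norm_num
    have : (2 : ℂ) ^ (2 * n + 4) * ((1 / 2) ^ n * (1 / 2) ^ (n + 1) * (1 / 8)) =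
      (2 : ℂ) ^ (2 * n) * ((1 / 2) ^ n * (1 / 2) ^ n) := by ring
    rw [this]; exact hpow
  · have e1 : (n + 1) % 4 = 3 := by omega
    unfold b c1 c2
    rw [if_neg (by omega), if_neg (by omega)]
    simp only [h, e1]
    norm_num
    have : (2 : ℂ) ^ (2 * n + 1) * ((1 / 2) ^ n * (1 / 2) ^ (n + 1)) =
      (2 : ℂ) ^ (2 * n) * ((1 / 2) ^ n * (1 / 2) ^ n) := by ring
    rw [this]; exact hpow
  · have e1 : (n + 1) % 4 = 0 := by omega
    unfold b c1 c2
    rw [if_neg (by omega), if_pos (by omega)]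
    simp only [h, e1]
    norm_num
    have : (2 : ℂ) ^ (2 * n + 4) * ((1 / 2) ^ n * (1 / 2) ^ (n + 1) * (1 / 8)) =
      (2 : ℂ) ^ (2 * n) * ((1 / 2) ^ n * (1 / 2) ^ n) := by ring
    rw [this]; exact hpow

/-- coordinate `x` parts -/
noncomputable def ax (c : ℕ → ℂ) (c0 : ℂ) (n : ℕ) : ℂ :=
  if n = 0 then 0 else if n = 1 then c0 else if n % 2 = 0 then (1 / 2) ^ n * c n else 0
noncomputable def ay (c : ℕ → ℂ) (n : ℕ) : ℂ :=
  if n % 2 = 1 then (1 / 2) ^ n * c n else 0

theorem ax_le (c : ℕ → ℂ) (hc : ∀ n, ‖c n‖ ≤ 1) (c0 : ℂ) (hc0 : ‖c0‖ ≤ 2) (n : ℕ) :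
    ‖ax c c0 n‖ ≤ 4 * (1 / 2) ^ n := by
  unfold ax
  split_ifs with h1 h2 h3
  · simp
  · subst h2; linarith
  · rw [norm_mul, norm_pow]
    have : ‖(1 / 2 : ℂ)‖ = 1 / 2 := by simp
    rw [this]
    have := hc n
    have h4 : (0 : ℝ) < (1 / 2) ^ n := by positivity
    nlinarith
  · rw [norm_zero]; positivity

theorem ay_le (c : ℕ → ℂ) (hc : ∀ n, ‖c n‖ ≤ 1) (n : ℕ) :
    ‖ay c n‖ ≤ 4 * (1 / 2) ^ n := by
  unfold ay
  split_ifs with h1
  · rw [norm_mul, norm_pow]
    have : ‖(1 / 2 : ℂ)‖ = 1 / 2 := by simp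
    rw [this]
    have := hc n
    have h4 : (0 : ℝ) < (1 / 2) ^ n := by positivity
    nlinarith
  · rw [norm_zero]; positivity

noncomputable def x1 : Hs := ⟨ax c1 2, memlp_of_le _ (ax_le _ c1_norm _ (by simp))⟩
noncomputable def x2 : Hs := ⟨ax c2 0, memlp_of_le _ (ax_le _ c2_norm _ (by simp))⟩
noncomputable def y1 : Hs := ⟨ay c1, memlp_of_le _ (ay_le _ c1_norm)⟩
noncomputable def y2 : Hs := ⟨ay c2, memlp_of_le _ (ay_le _ c2_norm)⟩

theorem x1_apply (n : ℕ) : (x1 : ℕ → ℂ) n = ax c1 2 n := rfl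
theorem x2_apply (n : ℕ) : (x2 : ℕ → ℂ) n = ax c2 0 n := rfl
theorem y1_apply (n : ℕ) : (y1 : ℕ → ℂ) n = ay c1 n := rfl
theorem y2_apply (n : ℕ) : (y2 : ℕ → ℂ) n = ay c2 n := rfl

theorem ay_conj1 (n : ℕ) : (starRingEnd ℂ) (ay c1 n) = ay c1 n := by
  unfold ay; split_ifs
  · rw [map_mul, half_conj, c1_conj]
  · simp
theorem ay_conj2 (n : ℕ) : (starRingEnd ℂ) (ay c2 n) = ay c2 n := by
  unfold ay; split_ifs
  · rw [map_mul, half_conj, c2_conj]
  · simp

/-- The coefficients of the rank two functional vanish. -/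
theorem coef_two (n : ℕ) (hn : 1 ≤ n) :
    ⟪g n, x1⟫_ℂ * ⟪y1, f n⟫_ℂ + ⟪g n, x2⟫_ℂ * ⟪y2, f n⟫_ℂ = 0 := by
  rcases Nat.mod_two_eq_zero_or_one n with hp | hp
  · -- even
    rw [g, f, if_neg (by omega), if_neg (by omega), inner_t_right, inner_t_right,
      inner_e_left, inner_e_left]
    simp only [x1_apply, x2_apply, y1_apply, y2_apply, ay_conj1, ay_conj2]
    have hA := ww (n - 1) (by omega)
    have hB := ww n hn
    rw [show n - 1 + 1 = n by omega] at hA
    have ex1 : ax c1 2 n = (1 / 2) ^ n * c1 n := by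
      unfold ax; rw [if_neg (by omega), if_neg (by omega), if_pos hp]
    have ex2 : ax c2 0 n = (1 / 2) ^ n * c2 n := by
      unfold ax; rw [if_neg (by omega), if_neg (by omega), if_pos hp]
    have ey1 : ay c1 n = 0 := by unfold ay; rw [if_neg (by omega)]
    have ey2 : ay c2 n = 0 := by unfold ay; rw [if_neg (by omega)]
    have ey3 : ay c1 (n - 1) = (1 / 2) ^ (n - 1) * c1 (n - 1) := by
      unfold ay; rw [if_pos (by omega)]
    have ey4 : ay c2 (n - 1) = (1 / 2) ^ (n - 1) * c2 (n - 1) := by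
      unfold ay; rw [if_pos (by omega)]
    have ey5 : ay c1 (n + 1) = (1 / 2) ^ (n + 1) * c1 (n + 1) := by
      unfold ay; rw [if_pos (by omega)]
    have ey6 : ay c2 (n + 1) = (1 / 2) ^ (n + 1) * c2 (n + 1) := by
      unfold ay; rw [if_pos (by omega)]
    rw [ex1, ex2, ey1, ey2, ey3, ey4, ey5, ey6]
    linear_combination hA - hB
  · -- odd
    rw [g, f, if_pos hp, if_pos hp, inner_t_left, inner_t_left, inner_e_right, inner_e_right]
    simp only [x1_apply, x2_apply, y1_apply, y2_apply, ay_conj1, ay_conj2]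
    have hB := ww n hn
    have ey1 : ay c1 n = (1 / 2) ^ n * c1 n := by unfold ay; rw [if_pos hp]
    have ey2 : ay c2 n = (1 / 2) ^ n * c2 n := by unfold ay; rw [if_pos hp]
    have ex5 : ax c1 2 (n + 1) = (1 / 2) ^ (n + 1) * c1 (n + 1) := by
      unfold ax; rw [if_neg (by omega), if_neg (by omega), if_pos (by omega)]
    have ex6 : ax c2 0 (n + 1) = (1 / 2) ^ (n + 1) * c2 (n + 1) := by
      unfold ax; rw [if_neg (by omega), if_neg (by omega), if_pos (by omega)]
    rcases Nat.eq_or_lt_of_le hn with h1 | h1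
    · subst h1
      have ex1 : ax c1 2 1 = 2 := by simp [ax]
      have ex2 : ax c2 0 1 = 0 := by simp [ax]
      have hc : c1 1 = 1 := by simp [c1]
      have hc2 : c2 1 = 0 := by simp [c2]
      rw [ex1, ex2, ey1, ey2, ex5, ex6]
      simp only [Nat.sub_self, b_zero]
      rw [hc, hc2] at hB ⊢
      linear_combination (-1 : ℂ) * hB
    · have hA := ww (n - 1) (by omega)
      rw [show n - 1 + 1 = n by omega] at hA
      have ex1 : ax c1 2 n = 0 := by
        unfold ax; rw [if_neg (by omega), if_neg (by omega), if_neg (by omega)]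
      have ex2 : ax c2 0 n = 0 := by
        unfold ax; rw [if_neg (by omega), if_neg (by omega), if_neg (by omega)]
      have ex3 : ax c1 2 (n - 1) = (1 / 2) ^ (n - 1) * c1 (n - 1) := by
        unfold ax; rw [if_neg (by omega), if_neg (by omega), if_pos (by omega)]
      have ex4 : ax c2 0 (n - 1) = (1 / 2) ^ (n - 1) * c2 (n - 1) := by
        unfold ax; rw [if_neg (by omega), if_neg (by omega), if_pos (by omega)]
      rw [ex1, ex2, ey1, ey2, ex3, ex4, ex5, ex6]
      linear_combination hA - hB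

theorem inner_y1_x1 : ⟪y1, x1⟫_ℂ = 1 := by
  have h1 := lp.hasSum_inner (𝕜 := ℂ) (G := fun _ : ℕ => ℂ) y1 x1
  have h2 : HasSum (fun n : ℕ => ⟪(y1 : ℕ → ℂ) n, (x1 : ℕ → ℂ) n⟫_ℂ) 1 := by
    convert hasSum_ite_eq (1 : ℕ) (1 : ℂ) using 1
    ext n
    rw [y1_apply, x1_apply, RCLike.inner_apply, ay_conj1]
    by_cases h : n = 1
    · subst h; norm_num [ay, ax, c1]
    · rw [if_neg h]
      rcases Nat.mod_two_eq_zero_or_one n with hp | hp
      · have h0 : ay c1 n = 0 := by unfold ay; rw [if_neg (by omega)]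
        rw [h0, mul_zero]
      · have h0 : ax c1 2 n = 0 := by
          unfold ax; rw [if_neg (by omega), if_neg (by omega), if_neg (by omega)]
        rw [h0, zero_mul]
  exact h1.unique h2

theorem inner_y2_x2 : ⟪y2, x2⟫_ℂ = 0 := by
  have h1 := lp.hasSum_inner (𝕜 := ℂ) (G := fun _ : ℕ => ℂ) y2 x2
  have h2 : HasSum (fun n : ℕ => ⟪(y2 : ℕ → ℂ) n, (x2 : ℕ → ℂ) n⟫_ℂ) 0 := by
    have e0 : (fun n : ℕ => ⟪(y2 : ℕ → ℂ) n, (x2 : ℕ → ℂ) n⟫_ℂ) = fun _ => 0 := by
      ext n
      rw [y2_apply, x2_apply, RCLike.inner_apply, ay_conj2]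
      by_cases h : n = 1
      · subst h; norm_num [ay, ax, c2]
      · rcases Nat.mod_two_eq_zero_or_one n with hp | hp
        · have h0 : ay c2 n = 0 := by unfold ay; rw [if_neg (by omega)]
          rw [h0, mul_zero]
        · have h0 : ax c2 0 n = 0 := by
            unfold ax; rw [if_neg (by omega), if_neg (by omega), if_neg (by omega)]
          rw [h0, zero_mul]
    rw [e0]
    exact hasSum_zero
  exact h1.unique h2

/-- The separating functional. -/
noncomputable def Phi (A : Hs →L[ℂ] Hs) : ℂ :=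
  ⟪y1, A x1⟫_ℂ + ⟪y2, A x2⟫_ℂ - ⟪e 0, A (e 0)⟫_ℂ

theorem Phi_add (A B : Hs →L[ℂ] Hs) : Phi (A + B) = Phi A + Phi B := by
  simp only [Phi, add_apply, inner_add_right]; ring

theorem Phi_smul (c : ℂ) (A : Hs →L[ℂ] Hs) : Phi (c • A) = c * Phi A := by
  simp only [Phi, smul_apply, inner_smul_right]; ring

theorem Phi_sub (A B : Hs →L[ℂ] Hs) : Phi (A - B) = Phi A - Phi B := by
  simp only [Phi, sub_apply, inner_sub_right]; ring

theorem T_e0 : T (e 0) = 0 := by
  have hf0 : f 0 = e 0 := by simp [f, t, b_zero]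
  have := D_apply_biorth lam f g f biorth sum_T 0
  rw [hf0, lam_zero, zero_smul] at this
  exact this

theorem Phi_pow (k : ℕ) : Phi (T ^ k) = 0 := by
  cases k with
  | zero =>
    simp only [Phi, pow_zero, one_apply_eq_self]
    rw [inner_y1_x1, inner_y2_x2, inner_e_left, e_apply]
    simp
  | succ k =>
    have h1 := inner_Tpow k x1 y1
    have h2 := inner_Tpow k x2 y2
    have h3 : (T ^ (k + 1)) (e 0) = 0 := by
      rw [pow_succ, mul_apply_eq_comp, T_e0, map_zero]
    have h4 := h1.add h2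
    have e0 : (fun n => lam n ^ (k + 1) * (⟪g n, x1⟫_ℂ * ⟪y1, f n⟫_ℂ) +
        lam n ^ (k + 1) * (⟪g n, x2⟫_ℂ * ⟪y2, f n⟫_ℂ)) = fun _ => 0 := by
      ext n
      rw [← mul_add]
      rcases Nat.eq_zero_or_pos n with h0 | h0
      · subst h0; simp [lam_zero]
      · rw [coef_two n h0, mul_zero]
    rw [e0] at h4
    have h5 := h4.unique hasSum_zero
    simp only [Phi]
    rw [h3, inner_zero_right, h5, sub_zero]

theorem Phi_poly (p : Polynomial ℂ) : Phi (Polynomial.aeval T p) = 0 := by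
  induction p using Polynomial.induction_on' with
  | add p q hp hq => rw [map_add, Phi_add, hp, hq, add_zero]
  | monomial n a =>
    rw [Polynomial.aeval_monomial, ← Algebra.smul_def, Phi_smul, Phi_pow, mul_zero]

theorem Phi_S : Phi S = -1 := by
  simp only [Phi, S_apply, inner_smul_right, inner_e_right, x1_apply, x2_apply, e_apply]
  simp [ax]

theorem not_approx (p : Polynomial ℂ)
    (h1 : ‖⟪y1, (S - Polynomial.aeval T p) x1⟫_ℂ‖ < 1 / 3)
    (h2 : ‖⟪y2, (S - Polynomial.aeval T p) x2⟫_ℂ‖ < 1 / 3)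
    (h3 : ‖⟪e 0, (S - Polynomial.aeval T p) (e 0)⟫_ℂ‖ < 1 / 3) : False := by
  have h : Phi (S - Polynomial.aeval T p) = -1 := by
    rw [Phi_sub, Phi_S, Phi_poly, sub_zero]
  have hn : ‖Phi (S - Polynomial.aeval T p)‖ = 1 := by rw [h]; simp
  have : ‖Phi (S - Polynomial.aeval T p)‖ < 1 := by
    unfold Phi
    calc _ ≤ ‖⟪y1, (S - Polynomial.aeval T p) x1⟫_ℂ + ⟪y2, (S - Polynomial.aeval T p) x2⟫_ℂ‖
          + ‖⟪e 0, (S - Polynomial.aeval T p) (e 0)⟫_ℂ‖ := norm_sub_le _ _
      _ ≤ ‖⟪y1, (S - Polynomial.aeval T p) x1⟫_ℂ‖ + ‖⟪y2, (S - Polynomial.aeval T p) x2⟫_ℂ‖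
          + ‖⟪e 0, (S - Polynomial.aeval T p) (e 0)⟫_ℂ‖ := by
          gcongr; exact norm_add_le _ _
      _ < 1 := by linarith
  linarith

end Pool.Agent.Helper441.TZero
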